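import Mathlib
import Pool.Agent.H5.W.Defs

namespace Pool.Agent.H3.WSieve

open Finset Pool.Agent.H5.W

/-- counting function: elements of the interval in a residue class and in prescribed classes
modulo the primes of `S` -/
def cnt (A X : ℕ) (Ω : ℕ → Finset ℕ) (S : Finset ℕ) (q r : ℕ) : ℕ :=
  ((Ioc A (A + X)).filter (fun v => v ≡ r [MOD q] ∧ ∀ l ∈ S, v % l ∈ Ω l)).card

theorem cnt_empty (A X : ℕ) (Ω : ℕ → Finset ℕ) (q r : ℕ) (hq : 0 < q) :
    |(cnt A X Ω ∅ q r : ℝ) - (X : ℝ) / q| ≤ 1 := by
  unfold cnt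
  simp only [notMem_empty, IsEmpty.forall_iff, implies_true, and_true]
  have h := Nat.Ioc_filter_modEq_card A (A + X) hq r
  have h0 : ((((Ioc A (A + X)).filter (fun v => v ≡ r [MOD q])).card : ℤ) : ℝ) =
      ((max (⌊(((A + X : ℕ) : ℚ) - r) / q⌋ - ⌊((A : ℚ) - r) / q⌋) 0 : ℤ) : ℝ) := by
    rw [h]
  rw [Int.cast_natCast] at h0
  rw [h0]
  have hq' : (0 : ℚ) < q := by exact_mod_cast hq
  have h1 : ⌊((A : ℚ) - r) / q⌋ ≤ ⌊(((A + X : ℕ) : ℚ) - r) / q⌋ := by
    apply Int.floor_le_floor
    apply div_le_div_of_nonneg_right _ hq'.le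
    push_cast
    have : (0 : ℚ) ≤ X := Nat.cast_nonneg X
    linarith
  rw [max_eq_left (by linarith)]
  have h2 := Int.floor_le (((A : ℚ) - r) / q)
  have h3 := Int.lt_floor_add_one (((A : ℚ) - r) / q)
  have h4 := Int.floor_le ((((A + X : ℕ) : ℚ) - r) / q)
  have h5 := Int.lt_floor_add_one ((((A + X : ℕ) : ℚ) - r) / q)
  have h6 : (((A + X : ℕ) : ℚ) - r) / q - ((A : ℚ) - r) / q = (X : ℚ) / q := by
    push_cast
    field_simp
    ring
  have key : |((⌊(((A + X : ℕ) : ℚ) - r) / q⌋ - ⌊((A : ℚ) - r) / q⌋ : ℤ) : ℚ) - (X : ℚ) / q| ≤ 1 := by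
    push_cast [abs_le] at *
    constructor <;> linarith
  have key' : ((|((⌊(((A + X : ℕ) : ℚ) - r) / q⌋ - ⌊((A : ℚ) - r) / q⌋ : ℤ) : ℚ) - (X : ℚ) / q| : ℚ) : ℝ) ≤ ((1 : ℚ) : ℝ) := by
    exact_mod_cast key
  push_cast at key' ⊢
  exact key'

theorem cnt_insert (A X : ℕ) (Ω : ℕ → Finset ℕ) (S : Finset ℕ) (l : ℕ) (q r : ℕ)
    (hcop : Nat.Coprime q l) (hlt : ∀ a ∈ Ω l, a < l) :
    cnt A X Ω (insert l S) q r =
      ∑ a ∈ Ω l, cnt A X Ω S (q * l) (Nat.chineseRemainder hcop r a : ℕ) := by
  unfold cnt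
  rw [← Finset.card_biUnion]
  · congr 1
    ext v
    simp only [mem_filter, mem_biUnion, mem_insert, forall_eq_or_imp]
    constructor
    · rintro ⟨hv, hr, hl, hS⟩
      refine ⟨v % l, hl, hv, ?_, hS⟩
      rw [← Nat.modEq_and_modEq_iff_modEq_mul hcop]
      have h := (Nat.chineseRemainder hcop r (v % l)).2
      refine ⟨hr.trans h.1.symm, ?_⟩
      exact (Nat.mod_modEq v l).symm.trans h.2.symm
    · rintro ⟨a, ha, hv, hc, hS⟩
      rw [← Nat.modEq_and_modEq_iff_modEq_mul hcop] at hc
      have h := (Nat.chineseRemainder hcop r a).2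
      refine ⟨hv, hc.1.trans h.1, ?_, hS⟩
      have h2 : v ≡ a [MOD l] := hc.2.trans h.2
      have h3 : v % l = a := by
        rw [h2]
        exact Nat.mod_eq_of_lt (hlt a ha)
      rw [h3]
      exact ha
  · intro a ha b hb hab
    rw [Function.onFun, Finset.disjoint_left]
    intro v hva hvb
    rw [mem_filter] at hva hvb
    have h1 := hva.2.1
    have h2 := hvb.2.1
    rw [← Nat.modEq_and_modEq_iff_modEq_mul hcop] at h1 h2
    have h3 := (Nat.chineseRemainder hcop r a).2
    have h4 := (Nat.chineseRemainder hcop r b).2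
    apply hab
    have h5 : a ≡ b [MOD l] := (h3.2.symm.trans h1.2.symm).trans (h2.2.trans h4.2)
    have h6 : a % l = b % l := h5
    rwa [Nat.mod_eq_of_lt (hlt a ha), Nat.mod_eq_of_lt (hlt b hb)] at h6

theorem cnt_bound (A X κ : ℕ) (Ω : ℕ → Finset ℕ) (S : Finset ℕ) : ∀ q r : ℕ, 0 < q →
    (∀ l ∈ S, l.Prime ∧ ¬ l ∣ q) → (∀ l ∈ S, (Ω l).card = κ ∧ ∀ a ∈ Ω l, a < l) →
    |(cnt A X Ω S q r : ℝ) - (κ : ℝ) ^ S.card / (∏ l ∈ S, (l : ℝ)) * ((X : ℝ) / q)|
      ≤ (κ : ℝ) ^ S.card := by
  induction S using Finset.induction_on with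
  | empty =>
    intro q r hq _ _
    simpa using cnt_empty A X Ω q r hq
  | insert l S hl ih =>
    intro q r hq hp hΩ
    have hlp := (hp l (mem_insert_self _ _)).1
    have hlq := (hp l (mem_insert_self _ _)).2
    have hΩl := hΩ l (mem_insert_self _ _)
    have hcop : Nat.Coprime q l := ((Nat.Prime.coprime_iff_not_dvd hlp).mpr hlq).symm
    rw [cnt_insert A X Ω S l q r hcop hΩl.2, Finset.card_insert_of_notMem hl,
      Finset.prod_insert hl]
    have hl0 : (0 : ℝ) < l := by exact_mod_cast hlp.pos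
    have hq0 : (0 : ℝ) < q := by exact_mod_cast hq
    have hP0 : (0 : ℝ) < ∏ l ∈ S, (l : ℝ) := by
      apply Finset.prod_pos
      intro i hi
      exact_mod_cast (hp i (mem_insert_of_mem hi)).1.pos
    have h1 : ((κ : ℝ) ^ (S.card + 1) / (l * ∏ l ∈ S, (l : ℝ)) * ((X : ℝ) / q)) =
        ∑ a ∈ Ω l, ((κ : ℝ) ^ S.card / (∏ l ∈ S, (l : ℝ)) * ((X : ℝ) / ((q * l : ℕ) : ℝ))) := by
      rw [Finset.sum_const, hΩl.1, nsmul_eq_mul]
      push_cast
      field_simp
      ring
    rw [h1]
    push_cast
    rw [← Finset.sum_sub_distrib]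
    refine (Finset.abs_sum_le_sum_abs _ _).trans ?_
    have h2 : ∀ a ∈ Ω l, |((cnt A X Ω S (q * l) (Nat.chineseRemainder hcop r a : ℕ) : ℕ) : ℝ) -
        (κ : ℝ) ^ S.card / (∏ l ∈ S, (l : ℝ)) * ((X : ℝ) / ((q : ℝ) * l))| ≤ (κ : ℝ) ^ S.card := by
      intro a _
      have := ih (q * l) (Nat.chineseRemainder hcop r a : ℕ) (Nat.mul_pos hq hlp.pos) ?_ ?_
      · push_cast at this
        exact this
      · intro l' hl'
        have h3 := hp l' (mem_insert_of_mem hl')
        refine ⟨h3.1, ?_⟩
        intro h4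
        rcases (Nat.Prime.dvd_mul h3.1).mp h4 with h5 | h5
        · exact h3.2 h5
        · have h6 : l' = l := (Nat.prime_dvd_prime_iff_eq h3.1 hlp).mp h5
          rw [h6] at hl'
          exact hl hl'
      · intro l' hl'
        exact hΩ l' (mem_insert_of_mem hl')
    refine (Finset.sum_le_sum h2).trans ?_
    rw [Finset.sum_const, hΩl.1, nsmul_eq_mul, pow_succ]
    linarith [mul_comm (κ : ℝ) ((κ : ℝ) ^ S.card)]

section Sieve

variable (κ z E q r A X : ℕ) (Ω : ℕ → Finset ℕ)

/-- the product of the sieving primes -/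
def PP : ℕ := ∏ l ∈ goodPrimes z E, l

/-- the product of the sieving primes whose forbidden classes contain `v` -/
def nval (v : ℕ) : ℕ := ∏ l ∈ (goodPrimes z E).filter (fun l => v % l ∈ Ω l), l

theorem goodPrimes_prime {l : ℕ} (hl : l ∈ goodPrimes z E) : l.Prime := by
  unfold goodPrimes at hl
  rw [mem_filter] at hl
  exact hl.2.1

theorem primeFactors_prod {S : Finset ℕ} (hS : ∀ l ∈ S, l.Prime) :
    (∏ l ∈ S, l).primeFactors = S := Nat.primeFactors_prod hS

theorem squarefree_prod {S : Finset ℕ} (hS : ∀ l ∈ S, l.Prime) : Squarefree (∏ l ∈ S, l) := by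
  induction S using Finset.induction_on with
  | empty => simp
  | insert l S hl ih =>
    rw [Finset.prod_insert hl]
    have h1 : ∀ l' ∈ S, l'.Prime := fun l' h => hS l' (mem_insert_of_mem h)
    have h2 := ih h1
    rw [Nat.squarefree_mul_iff]
    refine ⟨?_, (hS l (mem_insert_self _ _)).squarefree, h2⟩
    apply Nat.Coprime.prod_right
    intro l' hl'
    rw [Nat.coprime_primes (hS l (mem_insert_self _ _)) (h1 l' hl')]
    rintro rfl
    exact hl hl'

theorem PP_squarefree : Squarefree (PP z E) := squarefree_prod fun _ h => goodPrimes_prime z E h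

theorem PP_primeFactors : (PP z E).primeFactors = goodPrimes z E :=
  primeFactors_prod fun _ h => goodPrimes_prime z E h

theorem nval_primeFactors (v : ℕ) :
    (nval z E Ω v).primeFactors = (goodPrimes z E).filter (fun l => v % l ∈ Ω l) :=
  primeFactors_prod fun _ h => goodPrimes_prime z E (mem_filter.mp h).1

theorem nval_dvd (v : ℕ) : nval z E Ω v ∣ PP z E :=
  Finset.prod_dvd_prod_of_subset _ _ _ (filter_subset _ _)

theorem dvd_nval_iff {d : ℕ} (hd : d ∣ PP z E) (v : ℕ) :
    d ∣ nval z E Ω v ↔ ∀ l ∈ d.primeFactors, v % l ∈ Ω l := by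
  have hd0 : d ≠ 0 := (Squarefree.squarefree_of_dvd hd (PP_squarefree z E)).ne_zero
  have hn0 : nval z E Ω v ≠ 0 :=
    (Squarefree.squarefree_of_dvd (nval_dvd z E Ω v) (PP_squarefree z E)).ne_zero
  constructor
  · intro h l hl
    have h1 := Nat.primeFactors_mono h hn0 hl
    rw [nval_primeFactors, mem_filter] at h1
    exact h1.2
  · intro h
    have hsq : Squarefree d := Squarefree.squarefree_of_dvd hd (PP_squarefree z E)
    rw [← Nat.prod_primeFactors_of_squarefree hsq]
    apply Finset.prod_dvd_prod_of_subset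
    intro l hl
    rw [mem_filter]
    refine ⟨?_, h l hl⟩
    have h1 := Nat.primeFactors_mono hd (PP_squarefree z E).ne_zero hl
    rwa [PP_primeFactors] at h1

/-- the weights of the sieve problem -/
def wts (n : ℕ) : ℕ :=
  ((Ioc A (A + X)).filter (fun v => v ≡ r [MOD q] ∧ nval z E Ω v = n)).card

theorem sum_wts (d : ℕ) (hd : d ∣ PP z E) :
    (∑ n ∈ (PP z E).divisors, if d ∣ n then wts z E q r A X Ω n else 0) =
      cnt A X Ω d.primeFactors q r := by
  unfold cnt wts
  rw [← Finset.sum_filter, ← Finset.card_biUnion]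
  · congr 1
    ext v
    simp only [mem_biUnion, mem_filter, Nat.mem_divisors]
    constructor
    · rintro ⟨n, ⟨_, hdn⟩, hv, hr, hn⟩
      refine ⟨hv, hr, ?_⟩
      rw [← dvd_nval_iff z E Ω hd, hn]
      exact hdn
    · rintro ⟨hv, hr, hl⟩
      refine ⟨nval z E Ω v, ⟨⟨nval_dvd z E Ω v, (PP_squarefree z E).ne_zero⟩, ?_⟩, hv, hr, rfl⟩
      rwa [dvd_nval_iff z E Ω hd]
  · intro a _ b _ hab
    rw [Function.onFun, Finset.disjoint_left]
    intro v hva hvb
    rw [mem_filter] at hva hvb
    exact hab (hva.2.2.symm.trans hvb.2.2)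

/-- the sieve problem in the format of Mathlib -/
noncomputable def sv (hκ : 1 ≤ κ) (hκl : ∀ l ∈ goodPrimes z E, κ < l) : BoundingSieve where
  support := (PP z E).divisors
  prodPrimes := PP z E
  prodPrimes_squarefree := PP_squarefree z E
  weights := fun n => (wts z E q r A X Ω n : ℝ)
  weights_nonneg := fun n => Nat.cast_nonneg _
  totalMass := (X : ℝ) / q
  nu := ArithmeticFunction.prodPrimeFactors (fun p => (κ : ℝ) / p)
  nu_mult := ArithmeticFunction.IsMultiplicative.prodPrimeFactors _
  nu_pos_of_prime := by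
    intro p hp _
    rw [ArithmeticFunction.prodPrimeFactors_apply hp.ne_zero, Nat.Prime.primeFactors hp,
      Finset.prod_singleton]
    have h1 : (0 : ℝ) < κ := by exact_mod_cast hκ
    have h2 : (0 : ℝ) < p := by exact_mod_cast hp.pos
    positivity
  nu_lt_one_of_prime := by
    intro p hp hpP
    rw [ArithmeticFunction.prodPrimeFactors_apply hp.ne_zero, Nat.Prime.primeFactors hp,
      Finset.prod_singleton]
    have h2 : (0 : ℝ) < p := by exact_mod_cast hp.pos
    rw [div_lt_one h2]
    have h3 : p ∈ (PP z E).primeFactors :=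
      Nat.mem_primeFactors.mpr ⟨hp, hpP, (PP_squarefree z E).ne_zero⟩
    rw [PP_primeFactors] at h3
    exact_mod_cast hκl p h3

theorem nu_apply (hκ : 1 ≤ κ) (hκl : ∀ l ∈ goodPrimes z E, κ < l) {d : ℕ} (hd : d ∣ PP z E) :
    (sv κ z E q r A X Ω hκ hκl).nu d = (κ : ℝ) ^ d.primeFactors.card / d := by
  have hsq : Squarefree d := Squarefree.squarefree_of_dvd hd (PP_squarefree z E)
  show ArithmeticFunction.prodPrimeFactors (fun p => (κ : ℝ) / p) d = _
  rw [ArithmeticFunction.prodPrimeFactors_apply hsq.ne_zero, Finset.prod_div_distrib,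
    Finset.prod_const]
  congr 1
  rw [← Nat.cast_prod, Nat.prod_primeFactors_of_squarefree hsq]

theorem rem_bound (hκ : 1 ≤ κ) (hκl : ∀ l ∈ goodPrimes z E, κ < l) (hq : 0 < q)
    (hqE : ∀ l ∈ goodPrimes z E, ¬ l ∣ q)
    (hΩ : ∀ l ∈ goodPrimes z E, (Ω l).card = κ)
    (hΩlt : ∀ l ∈ goodPrimes z E, ∀ a ∈ Ω l, a < l) {d : ℕ} (hd : d ∣ PP z E) :
    |(sv κ z E q r A X Ω hκ hκl).rem d| ≤ (κ : ℝ) ^ d.primeFactors.card := by
  have hsq : Squarefree d := Squarefree.squarefree_of_dvd hd (PP_squarefree z E)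
  have hsub : d.primeFactors ⊆ goodPrimes z E := by
    rw [← PP_primeFactors]
    exact Nat.primeFactors_mono hd (PP_squarefree z E).ne_zero
  rw [BoundingSieve.rem, nu_apply κ z E q r A X Ω hκ hκl hd]
  have h1 : (sv κ z E q r A X Ω hκ hκl).multSum d = (cnt A X Ω d.primeFactors q r : ℝ) := by
    rw [← sum_wts z E q r A X Ω d hd, BoundingSieve.multSum]
    push_cast
    rfl
  rw [h1]
  have h2 := cnt_bound A X κ Ω d.primeFactors q r hq ?_ ?_
  · rw [← Nat.cast_prod, Nat.prod_primeFactors_of_squarefree hsq] at h2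
    exact h2
  · intro l hl
    exact ⟨(Nat.mem_primeFactors.mp hl).1, hqE l (hsub hl)⟩
  · intro l hl
    exact ⟨hΩ l (hsub hl), hΩlt l (hsub hl)⟩

end Sieve

section Selberg

open ArithmeticFunction ArithmeticFunction.Moebius

theorem sum_moebius_between {m l : ℕ} (hm : Squarefree m) :
    (∑ d ∈ m.divisors, if l ∣ d then (μ d : ℝ) else 0) = if m = l then (μ l : ℝ) else 0 := by
  have hm0 : m ≠ 0 := hm.ne_zero
  by_cases hl : l ∣ m
  · obtain ⟨k, rfl⟩ := hl
    have hl0 : l ≠ 0 := left_ne_zero_of_mul hm0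
    have hk0 : k ≠ 0 := right_ne_zero_of_mul hm0
    have hsq := Nat.squarefree_mul_iff.mp hm
    rw [← Finset.sum_filter]
    have h1 : ((l * k).divisors).filter (fun d => l ∣ d) = k.divisors.image (fun e => l * e) := by
      ext d
      simp only [mem_filter, Nat.mem_divisors, mem_image]
      constructor
      · rintro ⟨⟨hd, _⟩, e, rfl⟩
        exact ⟨e, ⟨(Nat.mul_dvd_mul_iff_left (Nat.pos_of_ne_zero hl0)).mp hd, hk0⟩, rfl⟩
      · rintro ⟨e, ⟨he, _⟩, rfl⟩
        exact ⟨⟨Nat.mul_dvd_mul_left l he, hm0⟩, Dvd.intro _ rfl⟩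
    rw [h1, Finset.sum_image]
    · have h2 : ∀ e ∈ k.divisors, (μ (l * e) : ℝ) = (μ l : ℝ) * (μ e : ℝ) := by
        intro e he
        have hcop : Nat.Coprime l e :=
          Nat.Coprime.coprime_dvd_right (Nat.dvd_of_mem_divisors he) hsq.1
        rw [isMultiplicative_moebius.map_mul_of_coprime hcop]
        push_cast
        ring
      rw [Finset.sum_congr rfl h2, ← Finset.mul_sum]
      have h3 : (∑ e ∈ k.divisors, (μ e : ℤ)) = if k = 1 then 1 else 0 := by
        have := congrArg (fun f : ArithmeticFunction ℤ => f k) moebius_mul_coe_zeta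
        simp only [ArithmeticFunction.coe_mul_zeta_apply, ArithmeticFunction.one_apply] at this
        exact this
      have h4 : (∑ e ∈ k.divisors, (μ e : ℝ)) = if k = 1 then 1 else 0 := by
        have h5 : ((∑ e ∈ k.divisors, (μ e : ℤ) : ℤ) : ℝ) = (((if k = 1 then 1 else 0 : ℤ)) : ℝ) := by
          rw [h3]
        push_cast at h5
        exact h5
      rw [h4]
      by_cases hk : k = 1
      · subst hk
        simp
      · rw [if_neg hk, mul_zero, if_neg]
        intro h
        apply hk
        have : l * k = l * 1 := by rw [h, mul_one]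
        exact Nat.eq_of_mul_eq_mul_left (Nat.pos_of_ne_zero hl0) this
    · intro a _ b _ hab
      exact Nat.eq_of_mul_eq_mul_left (Nat.pos_of_ne_zero hl0) hab
  · rw [if_neg]
    · apply Finset.sum_eq_zero
      intro d hd
      rw [if_neg]
      intro h
      exact hl (h.trans (Nat.dvd_of_mem_divisors hd))
    · rintro rfl
      exact hl dvd_rfl

variable (s : BoundingSieve) (z : ℕ)

/-- the Selberg sum -/
noncomputable def SS : ℝ := ∑ l ∈ (s.prodPrimes.divisors).filter (fun l => l ≤ z), s.selbergTerms l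

/-- the Selberg weights -/
noncomputable def ww (d : ℕ) : ℝ :=
  if d ∣ s.prodPrimes then
    (μ d : ℝ) / s.nu d *
      ((∑ l ∈ (s.prodPrimes.divisors).filter (fun l => l ≤ z),
        if d ∣ l then s.selbergTerms l else 0) / SS s z)
  else 0

theorem g_nonneg {l : ℕ} (hl : l ∈ (s.prodPrimes.divisors).filter (fun l => l ≤ z)) :
    0 ≤ s.selbergTerms l :=
  (BoundingSieve.selbergTerms_pos (Nat.dvd_of_mem_divisors (mem_filter.mp hl).1)).le

theorem SS_pos (hz : 1 ≤ z) : 0 < SS s z := by
  unfold SS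
  apply Finset.sum_pos
  · intro l hl
    exact BoundingSieve.selbergTerms_pos (Nat.dvd_of_mem_divisors (mem_filter.mp hl).1)
  · refine ⟨1, mem_filter.mpr ⟨?_, hz⟩⟩
    exact Nat.one_mem_divisors.mpr BoundingSieve.prodPrimes_ne_zero

theorem ww_one (hz : 1 ≤ z) : ww s z 1 = 1 := by
  unfold ww
  rw [if_pos (one_dvd _)]
  have h1 : s.nu 1 = 1 := s.nu_mult.map_one
  have h2 : (∑ l ∈ (s.prodPrimes.divisors).filter (fun l => l ≤ z),
        if 1 ∣ l then s.selbergTerms l else 0) = SS s z := by
    unfold SS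
    apply Finset.sum_congr rfl
    intro l _
    rw [if_pos (one_dvd _)]
  rw [h1, h2, div_self (SS_pos s z hz).ne']
  simp

theorem inner_nonneg (d : ℕ) : 0 ≤ ∑ l ∈ (s.prodPrimes.divisors).filter (fun l => l ≤ z),
        if d ∣ l then s.selbergTerms l else 0 := by
  apply Finset.sum_nonneg
  intro l hl
  split_ifs
  · exact g_nonneg s z hl
  · exact le_rfl

theorem inner_le (d : ℕ) : (∑ l ∈ (s.prodPrimes.divisors).filter (fun l => l ≤ z),
        if d ∣ l then s.selbergTerms l else 0) ≤ SS s z := by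
  unfold SS
  apply Finset.sum_le_sum
  intro l hl
  split_ifs
  · exact le_rfl
  · exact g_nonneg s z hl

theorem ww_abs (hz : 1 ≤ z) {d : ℕ} (hd : d ∣ s.prodPrimes) : |ww s z d| ≤ 1 / s.nu d := by
  unfold ww
  rw [if_pos hd, abs_mul, abs_div, abs_div]
  have hν := BoundingSieve.nu_pos_of_dvd_prodPrimes hd
  have hS := SS_pos s z hz
  rw [abs_of_pos hν, abs_of_pos hS, abs_of_nonneg (inner_nonneg s z d)]
  have h1 : |(μ d : ℝ)| ≤ 1 := by
    have := @abs_moebius_le_one d
    exact_mod_cast this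
  have h2 : (∑ l ∈ (s.prodPrimes.divisors).filter (fun l => l ≤ z),
        if d ∣ l then s.selbergTerms l else 0) / SS s z ≤ 1 := by
    rw [div_le_one hS]
    exact inner_le s z d
  have h3 : 0 ≤ (∑ l ∈ (s.prodPrimes.divisors).filter (fun l => l ≤ z),
        if d ∣ l then s.selbergTerms l else 0) / SS s z :=
    div_nonneg (inner_nonneg s z d) hS.le
  calc |(μ d : ℝ)| / s.nu d * _ ≤ 1 / s.nu d * 1 := by
        apply mul_le_mul _ h2 h3 (by positivity)
        exact div_le_div_of_nonneg_right h1 hν.le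
    _ = 1 / s.nu d := mul_one _

theorem ww_zero {d : ℕ} (hd : z < d) : ww s z d = 0 := by
  unfold ww
  split_ifs with h
  · have h1 : (∑ l ∈ (s.prodPrimes.divisors).filter (fun l => l ≤ z),
        if d ∣ l then s.selbergTerms l else 0) = 0 := by
      apply Finset.sum_eq_zero
      intro l hl
      rw [if_neg]
      intro hdl
      rw [mem_filter] at hl
      have h2 := Nat.le_of_dvd (Nat.pos_of_mem_divisors hl.1) hdl
      omega
    rw [h1]
    simp
  · rfl

theorem inner_diag {l : ℕ} (hl : l ∣ s.prodPrimes) :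
    (∑ d ∈ s.prodPrimes.divisors, if l ∣ d then s.nu d * ww s z d else 0) =
      if l ≤ z then (μ l : ℝ) * s.selbergTerms l / SS s z else 0 := by
  have hP := @BoundingSieve.prodPrimes_ne_zero s
  have h1 : ∀ d ∈ s.prodPrimes.divisors, (if l ∣ d then s.nu d * ww s z d else 0) =
      ∑ m ∈ (s.prodPrimes.divisors).filter (fun m => m ≤ z),
        if d ∣ m then (if l ∣ d then (μ d : ℝ) else 0) * (s.selbergTerms m / SS s z) else 0 := by
    intro d hd
    have hd' := Nat.dvd_of_mem_divisors hd
    have hν := (BoundingSieve.nu_pos_of_dvd_prodPrimes hd').ne'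
    split_ifs with h
    · unfold ww
      rw [if_pos hd']
      have : s.nu d * ((μ d : ℝ) / s.nu d *
        ((∑ l ∈ (s.prodPrimes.divisors).filter (fun l => l ≤ z),
          if d ∣ l then s.selbergTerms l else 0) / SS s z)) = (μ d : ℝ) *
        ((∑ l ∈ (s.prodPrimes.divisors).filter (fun l => l ≤ z),
          if d ∣ l then s.selbergTerms l else 0) / SS s z) := by
        field_simp
      rw [this, Finset.sum_div, Finset.mul_sum]
      apply Finset.sum_congr rfl
      intro m _
      split_ifs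
      · rfl
      · simp
    · simp
  rw [Finset.sum_congr rfl h1, Finset.sum_comm]
  have h2 : ∀ m ∈ (s.prodPrimes.divisors).filter (fun m => m ≤ z),
      (∑ d ∈ s.prodPrimes.divisors,
        if d ∣ m then (if l ∣ d then (μ d : ℝ) else 0) * (s.selbergTerms m / SS s z) else 0) =
      (if m = l then (μ l : ℝ) else 0) * (s.selbergTerms m / SS s z) := by
    intro m hm
    rw [mem_filter] at hm
    have hm' := Nat.dvd_of_mem_divisors hm.1
    rw [← sum_moebius_between (BoundingSieve.squarefree_of_dvd_prodPrimes hm'), Finset.sum_mul,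
      ← Nat.divisors_filter_dvd_of_dvd hP hm', Finset.sum_filter]
  rw [Finset.sum_congr rfl h2]
  by_cases hlz : l ≤ z
  · rw [if_pos hlz]
    have hmem : l ∈ (s.prodPrimes.divisors).filter (fun m => m ≤ z) :=
      mem_filter.mpr ⟨Nat.mem_divisors.mpr ⟨hl, hP⟩, hlz⟩
    rw [Finset.sum_eq_single_of_mem l hmem]
    · rw [if_pos rfl]
      ring
    · intro m _ hm
      rw [if_neg hm, zero_mul]
  · rw [if_neg hlz]
    apply Finset.sum_eq_zero
    intro m hm
    rw [if_neg, zero_mul]
    rintro rfl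
    exact hlz (mem_filter.mp hm).2

theorem mainSum_ww (hz : 1 ≤ z) :
    s.mainSum (BoundingSieve.lambdaSquared (ww s z)) = 1 / SS s z := by
  rw [BoundingSieve.mainSum_lambdaSquared_eq_sum_mul_sum_sq]
  have hS := (SS_pos s z hz).ne'
  have h1 : ∀ l ∈ s.prodPrimes.divisors, (s.selbergTerms l)⁻¹ *
        (∑ d ∈ s.prodPrimes.divisors, if l ∣ d then s.nu d * ww s z d else 0) ^ 2 =
      if l ≤ z then s.selbergTerms l / SS s z ^ 2 else 0 := by
    intro l hl
    have hl' := Nat.dvd_of_mem_divisors hl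
    rw [inner_diag s z hl']
    split_ifs
    · have hμ : (μ l : ℝ) ^ 2 = 1 := by
        have := moebius_sq_eq_one_of_squarefree (BoundingSieve.squarefree_of_dvd_prodPrimes hl')
        exact_mod_cast this
      have hg := (BoundingSieve.selbergTerms_pos hl').ne'
      rw [div_pow, mul_pow, hμ]
      field_simp
    · simp
  rw [Finset.sum_congr rfl h1, ← Finset.sum_filter, ← Finset.sum_div]
  change SS s z / SS s z ^ 2 = 1 / SS s z
  field_simp

theorem errSum_ww {κ : ℕ} (hκ : 1 ≤ κ) (hz : 1 ≤ z)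
    (hν : ∀ d, d ∣ s.prodPrimes → s.nu d = (κ : ℝ) ^ d.primeFactors.card / d)
    (hrem : ∀ d, d ∣ s.prodPrimes → |s.rem d| ≤ (κ : ℝ) ^ d.primeFactors.card) :
    s.errSum (BoundingSieve.lambdaSquared (ww s z)) ≤ (z : ℝ) ^ 4 := by
  have hP := @BoundingSieve.prodPrimes_ne_zero s
  have hκ' : (1 : ℝ) ≤ κ := by exact_mod_cast hκ
  unfold BoundingSieve.errSum BoundingSieve.lambdaSquared
  have hw : ∀ d, d ∣ s.prodPrimes →
      |ww s z d| * (κ : ℝ) ^ d.primeFactors.card ≤ if d ≤ z then (d : ℝ) else 0 := by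
    intro d hd
    split_ifs with h
    · have h1 := ww_abs s z hz hd
      rw [hν d hd] at h1
      have hk : (0 : ℝ) < (κ : ℝ) ^ d.primeFactors.card := by positivity
      have h2 : 1 / ((κ : ℝ) ^ d.primeFactors.card / d) * (κ : ℝ) ^ d.primeFactors.card = d := by
        have hd0 : (d : ℝ) ≠ 0 := by
          have := ne_zero_of_dvd_ne_zero hP hd
          exact_mod_cast this
        field_simp
      calc |ww s z d| * (κ : ℝ) ^ d.primeFactors.card
          ≤ 1 / ((κ : ℝ) ^ d.primeFactors.card / d) * (κ : ℝ) ^ d.primeFactors.card :=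
            mul_le_mul_of_nonneg_right h1 hk.le
        _ = d := h2
    · rw [ww_zero s z (by omega)]
      simp
  calc (∑ d ∈ s.prodPrimes.divisors, |∑ d1 ∈ d.divisors, ∑ d2 ∈ d.divisors,
        if d = Nat.lcm d1 d2 then ww s z d1 * ww s z d2 else 0| * |s.rem d|)
      ≤ ∑ d ∈ s.prodPrimes.divisors, ∑ d1 ∈ s.prodPrimes.divisors, ∑ d2 ∈ s.prodPrimes.divisors,
        if d = Nat.lcm d1 d2 then (if d1 ≤ z then (d1 : ℝ) else 0) *
          (if d2 ≤ z then (d2 : ℝ) else 0) else 0 := by
        apply Finset.sum_le_sum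
        intro d hd
        have hd' := Nat.dvd_of_mem_divisors hd
        have hsub : d.divisors ⊆ s.prodPrimes.divisors := Nat.divisors_subset_of_dvd hP hd'
        calc |∑ d1 ∈ d.divisors, ∑ d2 ∈ d.divisors,
              if d = Nat.lcm d1 d2 then ww s z d1 * ww s z d2 else 0| * |s.rem d|
            ≤ (∑ d1 ∈ d.divisors, ∑ d2 ∈ d.divisors,
              |if d = Nat.lcm d1 d2 then ww s z d1 * ww s z d2 else 0|) *
                (κ : ℝ) ^ d.primeFactors.card := by
              apply mul_le_mul _ (hrem d hd') (abs_nonneg _)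
                (Finset.sum_nonneg fun _ _ => Finset.sum_nonneg fun _ _ => abs_nonneg _)
              refine (Finset.abs_sum_le_sum_abs _ _).trans ?_
              apply Finset.sum_le_sum
              intro d1 _
              exact Finset.abs_sum_le_sum_abs _ _
          _ = ∑ d1 ∈ d.divisors, ∑ d2 ∈ d.divisors,
              |if d = Nat.lcm d1 d2 then ww s z d1 * ww s z d2 else 0| *
                (κ : ℝ) ^ d.primeFactors.card := by
              rw [Finset.sum_mul]
              apply Finset.sum_congr rfl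
              intro d1 _
              rw [Finset.sum_mul]
          _ ≤ ∑ d1 ∈ d.divisors, ∑ d2 ∈ d.divisors,
              (if d = Nat.lcm d1 d2 then (if d1 ≤ z then (d1 : ℝ) else 0) *
                (if d2 ≤ z then (d2 : ℝ) else 0) else 0) := by
              apply Finset.sum_le_sum
              intro d1 hd1
              apply Finset.sum_le_sum
              intro d2 hd2
              have hd1' := (Nat.dvd_of_mem_divisors hd1).trans hd'
              have hd2' := (Nat.dvd_of_mem_divisors hd2).trans hd'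
              split_ifs with h h1 h2 h2
              · have hcard : (κ : ℝ) ^ d.primeFactors.card ≤
                    (κ : ℝ) ^ d1.primeFactors.card * (κ : ℝ) ^ d2.primeFactors.card := by
                  rw [← pow_add]
                  apply pow_le_pow_right₀ hκ'
                  have h3 : d.primeFactors ⊆ d1.primeFactors ∪ d2.primeFactors := by
                    intro p hp
                    rw [h] at hp
                    have hpp := (Nat.mem_primeFactors.mp hp)
                    rw [mem_union, Nat.mem_primeFactors, Nat.mem_primeFactors]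
                    have hd10 := ne_zero_of_dvd_ne_zero hP hd1'
                    have hd20 := ne_zero_of_dvd_ne_zero hP hd2'
                    have h4 : p ∣ d1 * d2 := hpp.2.1.trans (Nat.lcm_dvd_mul d1 d2)
                    rcases (Nat.Prime.dvd_mul hpp.1).mp h4 with h5 | h5
                    · exact Or.inl ⟨hpp.1, h5, hd10⟩
                    · exact Or.inr ⟨hpp.1, h5, hd20⟩
                  exact (Finset.card_le_card h3).trans (Finset.card_union_le _ _)
                have e1 := hw d1 hd1'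
                have e2 := hw d2 hd2'
                rw [if_pos h1] at e1
                rw [if_pos h2] at e2
                rw [abs_mul]
                calc |ww s z d1| * |ww s z d2| * (κ : ℝ) ^ d.primeFactors.card
                    ≤ |ww s z d1| * |ww s z d2| *
                      ((κ : ℝ) ^ d1.primeFactors.card * (κ : ℝ) ^ d2.primeFactors.card) :=
                      mul_le_mul_of_nonneg_left hcard (by positivity)
                  _ = (|ww s z d1| * (κ : ℝ) ^ d1.primeFactors.card) *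
                      (|ww s z d2| * (κ : ℝ) ^ d2.primeFactors.card) := by ring
                  _ ≤ d1 * d2 := by
                      apply mul_le_mul e1 e2 (by positivity) (by positivity)
              · rw [ww_zero s z (show z < d2 by omega)]
                simp
              · rw [ww_zero s z (show z < d1 by omega)]
                simp
              · rw [ww_zero s z (show z < d1 by omega)]
                simp
              · simp
          _ ≤ ∑ d1 ∈ s.prodPrimes.divisors, ∑ d2 ∈ s.prodPrimes.divisors,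
              (if d = Nat.lcm d1 d2 then (if d1 ≤ z then (d1 : ℝ) else 0) *
                (if d2 ≤ z then (d2 : ℝ) else 0) else 0) := by
              refine (Finset.sum_le_sum fun d1 _ =>
                Finset.sum_le_sum_of_subset_of_nonneg hsub ?_).trans
                (Finset.sum_le_sum_of_subset_of_nonneg hsub ?_)
              · intro d2 _ _
                positivity
              · intro d1 _ _
                apply Finset.sum_nonneg
                intro d2 _
                positivity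
    _ = ∑ d1 ∈ s.prodPrimes.divisors, ∑ d2 ∈ s.prodPrimes.divisors,
          (if d1 ≤ z then (d1 : ℝ) else 0) * (if d2 ≤ z then (d2 : ℝ) else 0) := by
        rw [Finset.sum_comm]
        apply Finset.sum_congr rfl
        intro d1 hd1
        rw [Finset.sum_comm]
        apply Finset.sum_congr rfl
        intro d2 hd2
        have hmem : Nat.lcm d1 d2 ∈ s.prodPrimes.divisors :=
          Nat.mem_divisors.mpr ⟨Nat.lcm_dvd (Nat.dvd_of_mem_divisors hd1)
            (Nat.dvd_of_mem_divisors hd2), hP⟩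
        rw [Finset.sum_ite_eq' _ _ _, if_pos hmem]
    _ = (∑ d ∈ s.prodPrimes.divisors, if d ≤ z then (d : ℝ) else 0) ^ 2 := by
        rw [sq, Finset.sum_mul_sum]
    _ ≤ ((z : ℝ) ^ 2) ^ 2 := by
        apply pow_le_pow_left₀
        · apply Finset.sum_nonneg
          intro d _
          positivity
        · rw [← Finset.sum_filter]
          calc (∑ d ∈ (s.prodPrimes.divisors).filter (fun d => d ≤ z), (d : ℝ))
              ≤ ∑ d ∈ Finset.Icc 1 z, (d : ℝ) := by
                apply Finset.sum_le_sum_of_subset_of_nonneg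
                · intro d hd
                  rw [mem_filter] at hd
                  rw [mem_Icc]
                  exact ⟨Nat.pos_of_mem_divisors hd.1, hd.2⟩
                · intro d _ _
                  positivity
            _ ≤ ∑ _d ∈ Finset.Icc 1 z, (z : ℝ) := by
                apply Finset.sum_le_sum
                intro d hd
                rw [mem_Icc] at hd
                exact_mod_cast hd.2
            _ = (z : ℝ) ^ 2 := by
                rw [Finset.sum_const, Nat.card_Icc, nsmul_eq_mul, sq]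
                simp
    _ = (z : ℝ) ^ 4 := by ring

end Selberg

section Final

variable (κ z E q r A X : ℕ) (Ω : ℕ → Finset ℕ)

theorem siftedSum_sv (hκ : 1 ≤ κ) (hκl : ∀ l ∈ goodPrimes z E, κ < l) :
    (sv κ z E q r A X Ω hκ hκl).siftedSum =
      ((((Ioc A (A + X)).filter (fun v => v ≡ r [MOD q] ∧
        ∀ l ∈ goodPrimes z E, v % l ∉ Ω l)).card : ℕ) : ℝ) := by
  unfold BoundingSieve.siftedSum
  show (∑ d ∈ (PP z E).divisors, if Nat.Coprime (PP z E) d then (wts z E q r A X Ω d : ℝ) else 0) = _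
  rw [Finset.sum_eq_single_of_mem 1
    (Nat.one_mem_divisors.mpr (PP_squarefree z E).ne_zero)]
  · rw [if_pos (Nat.coprime_one_right _)]
    unfold wts
    congr 2
    apply Finset.filter_congr
    intro v _
    constructor
    · rintro ⟨hr, hn⟩
      refine ⟨hr, ?_⟩
      intro l hl hlΩ
      have h1 : l ∈ (nval z E Ω v).primeFactors := by
        rw [nval_primeFactors, mem_filter]
        exact ⟨hl, hlΩ⟩
      rw [hn] at h1
      simp at h1
    · rintro ⟨hr, hl⟩
      refine ⟨hr, ?_⟩
      unfold nval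
      rw [Finset.filter_false_of_mem hl, Finset.prod_empty]
  · intro d hd hd1
    rw [if_neg]
    intro hcop
    apply hd1
    have := Nat.dvd_gcd (Nat.dvd_of_mem_divisors hd) (dvd_refl d)
    rw [hcop] at this
    exact Nat.dvd_one.mp this

theorem sieveSum_pos (hκ : 1 ≤ κ) (hz : 1 ≤ z) : 0 < sieveSum κ z E := by
  unfold sieveSum
  apply Finset.sum_pos
  · intro l hl
    rw [mem_filter, mem_Icc] at hl
    have h1 : (0 : ℝ) < κ := by exact_mod_cast hκ
    have h2 : (0 : ℝ) < l := by exact_mod_cast hl.1.1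
    positivity
  · exact ⟨1, mem_filter.mpr ⟨mem_Icc.mpr ⟨le_rfl, hz⟩, squarefree_one, Nat.coprime_one_left _⟩⟩

theorem sieveSum_le (hκ : 1 ≤ κ) (hκl : ∀ l ∈ goodPrimes z E, κ < l) :
    sieveSum κ z E ≤ SS (sv κ z E q r A X Ω hκ hκl) z := by
  unfold sieveSum SS
  have h0 : ∀ l ∈ (Icc 1 z).filter (fun l => Squarefree l ∧ l.Coprime E), l ∣ PP z E := by
    intro l hl
    rw [mem_filter, mem_Icc] at hl
    rw [← Nat.prod_primeFactors_of_squarefree hl.2.1]
    apply Finset.prod_dvd_prod_of_subset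
    intro p hp
    have hp' := Nat.mem_primeFactors.mp hp
    unfold goodPrimes
    rw [mem_filter, mem_range]
    refine ⟨?_, hp'.1, ?_⟩
    · have := Nat.le_of_dvd (by omega) hp'.2.1
      omega
    · intro hpE
      have h1 := Nat.dvd_gcd hp'.2.1 hpE
      rw [hl.2.2] at h1
      exact hp'.1.one_lt.ne' (Nat.dvd_one.mp h1)
  have hsub : (Icc 1 z).filter (fun l => Squarefree l ∧ l.Coprime E) ⊆
      ((sv κ z E q r A X Ω hκ hκl).prodPrimes.divisors).filter (fun l => l ≤ z) := by
    intro l hl
    have h1 := h0 l hl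
    rw [mem_filter, mem_Icc] at hl
    rw [mem_filter]
    exact ⟨Nat.mem_divisors.mpr ⟨h1, (PP_squarefree z E).ne_zero⟩, hl.1.2⟩
  refine (Finset.sum_le_sum ?_).trans (Finset.sum_le_sum_of_subset_of_nonneg hsub ?_)
  · intro l hl
    have h1 := h0 l hl
    rw [BoundingSieve.selbergTerms_apply, nu_apply κ z E q r A X Ω hκ hκl h1]
    have h2 : (1 : ℝ) ≤ ∏ p ∈ l.primeFactors, (1 - (sv κ z E q r A X Ω hκ hκl).nu p)⁻¹ := by
      apply Finset.one_le_prod
      intro p hp
      have hp' := Nat.mem_primeFactors.mp hp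
      have hpP : p ∣ (sv κ z E q r A X Ω hκ hκl).prodPrimes := hp'.2.1.trans h1
      have h3 := (sv κ z E q r A X Ω hκ hκl).nu_pos_of_prime p hp'.1 hpP
      have h4 := (sv κ z E q r A X Ω hκ hκl).nu_lt_one_of_prime p hp'.1 hpP
      rw [one_le_inv₀ (by linarith)]
      linarith
    have h3 : (0 : ℝ) ≤ (κ : ℝ) ^ l.primeFactors.card / l := by positivity
    calc (κ : ℝ) ^ l.primeFactors.card / l = (κ : ℝ) ^ l.primeFactors.card / l * 1 := by ring
      _ ≤ _ := mul_le_mul_of_nonneg_left h2 h3
  · intro l hl _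
    exact g_nonneg _ z hl

end Final

end Pool.Agent.H3.WSieve

namespace Pool.Agent.H5.W

open Finset

/-- MODULE SIEVE -/
theorem selberg_count (κ z E q r A X : ℕ) (hκ : 1 ≤ κ) (hz : 1 ≤ z) (hq : 0 < q)
    (hqE : ∀ l ∈ goodPrimes z E, ¬ l ∣ q) (hκl : ∀ l ∈ goodPrimes z E, κ < l)
    (Ω : ℕ → Finset ℕ) (hΩ : ∀ l ∈ goodPrimes z E, (Ω l).card = κ)
    (hΩlt : ∀ l ∈ goodPrimes z E, ∀ a ∈ Ω l, a < l) :
    ((((Ioc A (A + X)).filter (fun v => v ≡ r [MOD q] ∧
      ∀ l ∈ goodPrimes z E, v % l ∉ Ω l)).card : ℕ) : ℝ) ≤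
      (X / q : ℝ) / sieveSum κ z E + (z : ℝ) ^ 4 := by
  set s := Pool.Agent.H3.WSieve.sv κ z E q r A X Ω hκ hκl with hs
  have h1 := BoundingSieve.siftedSum_le_mainSum_errSum_of_upperMoebius (s := s)
    (BoundingSieve.lambdaSquared (Pool.Agent.H3.WSieve.ww s z))
    (BoundingSieve.upperMoebius_lambdaSquared _ (Pool.Agent.H3.WSieve.ww_one s z hz))
  rw [Pool.Agent.H3.WSieve.mainSum_ww s z hz] at h1
  have h2 := Pool.Agent.H3.WSieve.errSum_ww s z hκ hz
    (fun d hd => Pool.Agent.H3.WSieve.nu_apply κ z E q r A X Ω hκ hκl hd)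
    (fun d hd => Pool.Agent.H3.WSieve.rem_bound κ z E q r A X Ω hκ hκl hq hqE hΩ hΩlt hd)
  have h3 : s.siftedSum = _ := Pool.Agent.H3.WSieve.siftedSum_sv κ z E q r A X Ω hκ hκl
  rw [h3] at h1
  have h4 := Pool.Agent.H3.WSieve.sieveSum_le κ z E q r A X Ω hκ hκl
  have h5 := Pool.Agent.H3.WSieve.sieveSum_pos κ z E hκ hz
  have h6 : s.totalMass = (X : ℝ) / q := rfl
  have h7 : (X : ℝ) / q * (1 / Pool.Agent.H3.WSieve.SS s z) ≤ (X / q : ℝ) / sieveSum κ z E := by
    rw [mul_one_div]
    apply div_le_div_of_nonneg_left _ h5 h4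
    positivity
  rw [h6] at h1
  linarith

end Pool.Agent.H5.W
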