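import Mathlib
import Pool.Agent.H29.ChordalDefs

namespace Pool.Agent.H3.ChordalPEO

open SimpleGraph Pool.Agent.H29.Chordal

variable {V : Type*}

/-- the restriction of the edge set of `G` to the edges inside `S` -/
def restr (G : SimpleGraph V) (S : Set V) : SimpleGraph V where
  Adj a b := G.Adj a b ∧ a ∈ S ∧ b ∈ S
  symm := ⟨fun _ _ h => ⟨h.1.symm, h.2.2, h.2.1⟩⟩
  loopless := ⟨fun _ h => G.loopless.irrefl _ h.1⟩

theorem restr_adj {G : SimpleGraph V} {S : Set V} {a b : V} :
    (restr G S).Adj a b ↔ G.Adj a b ∧ a ∈ S ∧ b ∈ S := Iff.rfl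

theorem restr_le (G : SimpleGraph V) (S : Set V) : restr G S ≤ G := fun _ _ h => h.1

theorem restr_mono (G : SimpleGraph V) {S T : Set V} (h : S ⊆ T) : restr G S ≤ restr G T :=
  fun _ _ hab => ⟨hab.1, h hab.2.1, h hab.2.2⟩

/-- support of a walk in `restr G S` starting in `S` -/
theorem support_subset {G : SimpleGraph V} {S : Set V} {a b : V} (p : (restr G S).Walk a b)
    (ha : a ∈ S) : ∀ c ∈ p.support, c ∈ S := by
  induction p with
  | nil =>
    intro c hc
    simp at hc
    rw [hc]
    exact ha
  | cons h q ih =>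
    intro c hc
    rw [Walk.support_cons, List.mem_cons] at hc
    rcases hc with rfl | hc
    · exact ha
    · exact ih h.2.2 c hc

/-- an edge between two vertices of a geodesic is an edge of the geodesic -/
theorem geodesic_chord {H : SimpleGraph V} {x y : V} (p : H.Walk x y) (hp : p.length = H.dist x y)
    {i j : ℕ} (hij : i < j) (hj : j ≤ p.length) (hadj : H.Adj (p.getVert i) (p.getVert j)) :
    s(p.getVert i, p.getVert j) ∈ p.edges := by
  by_cases h : j = i + 1
  · subst h
    rw [Walk.mk_mem_edges_iff_exists]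
    exact ⟨i, by omega, rfl⟩
  · exfalso
    have h1 := H.dist_le (((p.take i).concat hadj).append (p.drop j))
    rw [Walk.length_append, Walk.length_concat, Walk.take_length, Walk.drop_length] at h1
    have : i ⊓ p.length = i := by
      apply Nat.min_eq_left
      omega
    omega

theorem geodesic_chordless {H : SimpleGraph V} {x y : V} (p : H.Walk x y)
    (hp : p.length = H.dist x y) {a b : V} (ha : a ∈ p.support) (hb : b ∈ p.support)
    (hadj : H.Adj a b) : s(a, b) ∈ p.edges := by
  rw [Walk.mem_support_iff_exists_getVert] at ha hb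
  obtain ⟨i, rfl, hi⟩ := ha
  obtain ⟨j, rfl, hj⟩ := hb
  rcases Nat.lt_trichotomy i j with h | h | h
  · exact geodesic_chord p hp h hj hadj
  · subst h
    exact absurd rfl hadj.ne
  · rw [Sym2.eq_swap]
    exact geodesic_chord p hp h hi hadj.symm

/-- the clique lemma -/
theorem clique_lemma {G : SimpleGraph V} (hG : IsChordal G) {v x y : V} (hxy : x ≠ y)
    (hvx : G.Adj v x) (hvy : G.Adj v y) (S : Set V) (hx : x ∈ S) (hvS : v ∉ S)
    (hS : ∀ s ∈ S, G.Adj v s → s = x ∨ s = y) (hr : (restr G S).Reachable x y) :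
    G.Adj x y := by
  by_contra hnadj
  obtain ⟨p, hpath, hlen⟩ := hr.exists_path_of_dist
  have hsup : ∀ c ∈ p.support, c ∈ S := support_subset p hx
  have hlen2 : 2 ≤ p.length := by
    rcases Nat.lt_or_ge p.length 2 with h | h
    · exfalso
      interval_cases hl : p.length
      · exact hxy (Walk.eq_of_length_eq_zero hl)
      · exact hnadj (Walk.adj_of_length_eq_one hl).1
    · exact h
  set p' : G.Walk x y := p.mapLe (restr_le G S) with hp'
  have hsup' : p'.support = p.support := by
    rw [hp', Walk.support_mapLe_eq_support]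
  have hedges' : p'.edges = p.edges := by
    rw [hp', Walk.edges_mapLe_eq_edges]
  have hlen' : p'.length = p.length := by
    rw [hp', Walk.length_map]
  have hpath' : p'.IsPath := by
    rw [hp']
    exact (Walk.isPath_mapLe (restr_le G S)).mpr hpath
  have hvp' : v ∉ p'.support := by
    rw [hsup']
    intro h
    exact hvS (hsup v h)
  set q : G.Walk x v := p'.concat hvy.symm with hq
  have hqpath : q.IsPath := hpath'.concat hvp' hvy.symm
  have hqedges : q.edges = p'.edges ++ [s(y, v)] := by
    rw [hq, Walk.edges_concat, List.concat_eq_append]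
  have hvx_not : s(v, x) ∉ q.edges := by
    rw [hqedges, List.mem_append]
    rintro (h | h)
    · exact hvp' (Walk.fst_mem_support_of_mem_edges _ h)
    · rw [List.mem_singleton, Sym2.eq_iff] at h
      rcases h with ⟨h1, h2⟩ | ⟨h1, h2⟩
      · exact hvx.ne h2.symm
      · exact hxy h2
  have hcyc : (Walk.cons hvx q).IsCycle := (Walk.cons_isCycle_iff q hvx).mpr ⟨hqpath, hvx_not⟩
  have hclen : 4 ≤ (Walk.cons hvx q).length := by
    rw [Walk.length_cons, hq, Walk.length_concat, hlen']
    omega
  obtain ⟨e, he⟩ := hG v _ hcyc hclen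
  have hedg : (Walk.cons hvx q).edges = s(v, x) :: (p'.edges ++ [s(y, v)]) := by
    rw [Walk.edges_cons, hqedges]
  have hsupp : ∀ c, c ∈ (Walk.cons hvx q).support → c = v ∨ c ∈ p.support := by
    intro c hc
    rw [Walk.support_cons, List.mem_cons, hq, Walk.support_concat,
      List.mem_append, hsup', List.mem_singleton] at hc
    tauto
  have hv_case : ∀ c, G.Adj v c → c ∈ p.support → s(v, c) ∈ (Walk.cons hvx q).edges := by
    intro c hvc hc
    rcases hS c (hsup c hc) hvc with rfl | rfl
    · rw [hedg]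
      exact List.mem_cons_self
    · rw [hedg, List.mem_cons, List.mem_append, List.mem_singleton]
      right; right
      exact Sym2.eq_swap
  induction e using Sym2.ind with
  | _ a b =>
    rw [Walk.isChord_sym2Mk] at he
    obtain ⟨hab, hnot, ha, hb⟩ := he
    rcases hsupp a ha with rfl | ha'
    · rcases hsupp b hb with rfl | hb'
      · exact hab.ne rfl
      · exact hnot (hv_case b hab hb')
    · rcases hsupp b hb with rfl | hb'
      · apply hnot
        rw [Sym2.eq_swap]
        exact hv_case a hab.symm ha'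
      · apply hnot
        have h := geodesic_chordless p hlen ha' hb' ⟨hab, hsup a ha', hsup b hb'⟩
        rw [hedg, List.mem_cons, List.mem_append, hedges']
        exact Or.inr (Or.inl h)

theorem reach_restr {G : SimpleGraph V} (S : Set V) (u : V) {a b : V}
    (ha : (restr G S).Reachable u a) (hab : (restr G S).Reachable a b) :
    (restr G {c | (restr G S).Reachable u c}).Reachable a b := by
  obtain ⟨p⟩ := hab
  induction p with
  | nil => exact Reachable.refl _
  | cons h q ih =>
    rename_i a' b' c'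
    have hb' : (restr G S).Reachable u b' := ha.trans h.reachable
    exact (Adj.reachable (⟨h.1, ha, hb'⟩ :
      (restr G {c | (restr G S).Reachable u c}).Adj a' b')).trans (ih hb')

/-- `z` is simplicial in `G[W]` -/
def Simp (G : SimpleGraph V) (W : Finset V) (z : V) : Prop :=
  ∀ u ∈ W, ∀ w ∈ W, G.Adj z u → G.Adj z w → u ≠ w → G.Adj u w

theorem dirac {G : SimpleGraph V} (hG : IsChordal G) (n : ℕ) : ∀ W : Finset V, W.card ≤ n →
    ∀ v ∈ W, (∃ u ∈ W, u ≠ v ∧ ¬ G.Adj v u) → ∃ z ∈ W, z ≠ v ∧ ¬ G.Adj v z ∧ Simp G W z := by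
  classical
  induction n with
  | zero =>
    intro W hW v hv _
    have : W = ∅ := Finset.card_eq_zero.mp (by omega)
    rw [this] at hv
    simp at hv
  | succ n ih =>
    intro W hW v hv ⟨u, hu, huv, hnadj⟩
    set S : Set V := {a | a ∈ W ∧ a ≠ v ∧ ¬ G.Adj v a} with hS
    have huS : u ∈ S := ⟨hu, huv, hnadj⟩
    set C : Set V := {c | (restr G S).Reachable u c} with hC
    have hCS : ∀ c ∈ C, c ∈ S := by
      intro c hc
      obtain ⟨p⟩ := hc
      exact support_subset p huS c p.end_mem_support
    have huC : u ∈ C := Reachable.refl _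
    set T : Set V := {x | x ∈ W ∧ G.Adj v x ∧ ∃ a ∈ C, G.Adj x a} with hT
    have hTclique : ∀ x ∈ T, ∀ y ∈ T, x ≠ y → G.Adj x y := by
      intro x hx y hy hxy
      obtain ⟨hxW, hvx, a, haC, hxa⟩ := hx
      obtain ⟨hyW, hvy, b, hbC, hyb⟩ := hy
      apply clique_lemma hG hxy hvx hvy (C ∪ {x, y})
      · simp
      · intro h
        rcases h with h | h | h
        · exact (hCS v h).2.1 rfl
        · exact hvx.ne h
        · exact hvy.ne h
      · intro s hs hvs
        rcases hs with h | h | h
        · exact absurd hvs (hCS s h).2.2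
        · exact Or.inl h
        · exact Or.inr h
      · have h1 : (restr G (C ∪ {x, y})).Adj x a := ⟨hxa, by simp, Or.inl haC⟩
        have h2 : (restr G (C ∪ {x, y})).Adj b y := ⟨hyb.symm, Or.inl hbC, by simp⟩
        have h3 : (restr G C).Reachable a b := reach_restr S u haC (haC.symm.trans hbC)
        have h4 : (restr G (C ∪ {x, y})).Reachable a b :=
          h3.mono (restr_mono G Set.subset_union_left)
        exact h1.reachable.trans (h4.trans h2.reachable)
    set W2 : Finset V := W.filter (fun a => a ∈ C ∨ a ∈ T) with hW2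
    have hvW2 : v ∉ W2 := by
      rw [hW2, Finset.mem_filter]
      rintro ⟨_, h | h⟩
      · exact (hCS v h).2.1 rfl
      · exact h.2.1.ne rfl
    have hW2card : W2.card ≤ n := by
      have h1 : W2 ⊂ W := by
        rw [Finset.ssubset_iff_of_subset (Finset.filter_subset _ _)]
        exact ⟨v, hv, hvW2⟩
      have h2 := Finset.card_lt_card h1
      omega
    have huW2 : u ∈ W2 := by
      rw [hW2, Finset.mem_filter]
      exact ⟨hu, Or.inl huC⟩
    have hnb : ∀ z ∈ C, ∀ w ∈ W, G.Adj z w → w ∈ W2 := by
      intro z hz w hw hzw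
      rw [hW2, Finset.mem_filter]
      refine ⟨hw, ?_⟩
      have hzS := hCS z hz
      by_cases hvw : G.Adj v w
      · right
        exact ⟨hw, hvw, z, hz, hzw.symm⟩
      · left
        have hwv : w ≠ v := by
          rintro rfl
          exact hzS.2.2 hzw.symm
        have hwS : w ∈ S := ⟨hw, hwv, hvw⟩
        have h1 : (restr G S).Adj z w := ⟨hzw, hzS, hwS⟩
        exact Reachable.trans hz h1.reachable
    -- it suffices to find a simplicial vertex of `G[W2]` in `C`
    have hsuff : (∃ z ∈ C, Simp G W2 z) → ∃ z ∈ W, z ≠ v ∧ ¬ G.Adj v z ∧ Simp G W z := by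
      rintro ⟨z, hz, hsimp⟩
      have hzS := hCS z hz
      refine ⟨z, hzS.1, hzS.2.1, hzS.2.2, ?_⟩
      intro a ha b hb hza hzb hab
      exact hsimp a (hnb z hz a ha hza) b (hnb z hz b hb hzb) hza hzb hab
    apply hsuff
    have hmem : ∀ z ∈ W2, z ∈ C ∨ z ∈ T := by
      intro z hz
      rw [hW2, Finset.mem_filter] at hz
      exact hz.2
    by_cases h1 : ∃ w ∈ W2, w ∈ T ∧ ∃ u' ∈ W2, u' ≠ w ∧ ¬ G.Adj w u'
    · obtain ⟨w, hw, hwT, hw'⟩ := h1
      obtain ⟨z, hz, hzw, hnad, hsimp⟩ := ih W2 hW2card w hw hw'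
      refine ⟨z, ?_, hsimp⟩
      rcases hmem z hz with h | h
      · exact h
      · exact absurd (hTclique w hwT z h hzw.symm) hnad
    · push Not at h1
      by_cases h2 : ∃ w ∈ W2, ∃ u' ∈ W2, u' ≠ w ∧ ¬ G.Adj w u'
      · obtain ⟨w, hw, hw'⟩ := h2
        obtain ⟨z, hz, hzw, hnad, hsimp⟩ := ih W2 hW2card w hw hw'
        refine ⟨z, ?_, hsimp⟩
        rcases hmem z hz with h | h
        · exact h
        · exact absurd (h1 z hz h w hw hzw.symm).symm hnad
      · push Not at h2
        refine ⟨u, huC, ?_⟩
        intro a ha b hb _ _ hab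
        exact h2 a ha b hb hab.symm

theorem exists_simplicial {G : SimpleGraph V} (hG : IsChordal G) (W : Finset V)
    (hW : W.Nonempty) : ∃ z ∈ W, Simp G W z := by
  by_cases h : ∃ v ∈ W, ∃ u ∈ W, u ≠ v ∧ ¬ G.Adj v u
  · obtain ⟨v, hv, hu⟩ := h
    obtain ⟨z, hz, _, _, hs⟩ := dirac hG W.card W le_rfl v hv hu
    exact ⟨z, hz, hs⟩
  · push Not at h
    obtain ⟨z, hz⟩ := hW
    refine ⟨z, hz, ?_⟩
    intro a ha b hb _ _ hab
    exact h a ha b hb hab.symm

theorem exists_order {G : SimpleGraph V} (hG : IsChordal G) (n : ℕ) : ∀ W : Finset V, W.card = n →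
    ∃ r : V → ℕ, Set.InjOn r W ∧ ∀ v ∈ W, ∀ u ∈ W, ∀ w ∈ W, r u < r v → r w < r v →
      G.Adj v u → G.Adj v w → u ≠ w → G.Adj u w := by
  classical
  induction n with
  | zero =>
    intro W hW
    rw [Finset.card_eq_zero.mp hW]
    exact ⟨fun _ => 0, by simp, by simp⟩
  | succ n ih =>
    intro W hW
    have hne : W.Nonempty := Finset.card_pos.mp (by omega)
    obtain ⟨z, hz, hsimp⟩ := exists_simplicial hG W hne
    obtain ⟨r, hinj, hr⟩ := ih (W.erase z) (by rw [Finset.card_erase_of_mem hz]; omega)
    set M : ℕ := (W.erase z).sup r with hM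
    have hMle : ∀ a ∈ W, a ≠ z → r a ≤ M := by
      intro a ha haz
      exact Finset.le_sup (f := r) (Finset.mem_erase.mpr ⟨haz, ha⟩)
    refine ⟨fun a => if a = z then M + 1 else r a, ?_, ?_⟩
    · intro a ha b hb hab
      rw [Finset.mem_coe] at ha hb
      simp only at hab
      by_cases h1 : a = z
      · by_cases h2 : b = z
        · rw [h1, h2]
        · rw [if_pos h1, if_neg h2] at hab
          have := hMle b hb h2
          omega
      · by_cases h2 : b = z
        · rw [if_neg h1, if_pos h2] at hab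
          have := hMle a ha h1
          omega
        · rw [if_neg h1, if_neg h2] at hab
          exact hinj (Finset.mem_coe.mpr (Finset.mem_erase.mpr ⟨h1, ha⟩))
            (Finset.mem_coe.mpr (Finset.mem_erase.mpr ⟨h2, hb⟩)) hab
    · intro v hv u hu w hw huv hwv hvu hvw huw
      simp only at huv hwv
      by_cases h1 : v = z
      · subst h1
        exact hsimp u hu w hw hvu hvw huw
      · rw [if_neg h1] at huv hwv
        have hv1 := hMle v hv h1
        have h2 : u ≠ z := by
          rintro rfl
          rw [if_pos rfl] at huv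
          omega
        have h3 : w ≠ z := by
          rintro rfl
          rw [if_pos rfl] at hwv
          omega
        rw [if_neg h2] at huv
        rw [if_neg h3] at hwv
        exact hr v (Finset.mem_erase.mpr ⟨h1, hv⟩) u (Finset.mem_erase.mpr ⟨h2, hu⟩) w
          (Finset.mem_erase.mpr ⟨h3, hw⟩) huv hwv hvu hvw huw

/-- Every finite chordal graph has a perfect elimination order. -/
theorem exists_peo {V : Type*} [Finite V] (G : SimpleGraph V) (h : IsChordal G) :
    ∃ r : V → ℕ, Function.Injective r ∧ ∀ v u w, r u < r v → r w < r v → G.Adj v u →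
      G.Adj v w → u ≠ w → G.Adj u w := by
  classical
  have := Fintype.ofFinite V
  obtain ⟨r, hinj, hr⟩ := exists_order h _ (Finset.univ : Finset V) rfl
  refine ⟨r, ?_, ?_⟩
  · intro a b hab
    exact hinj (by simp) (by simp) hab
  · intro v u w
    exact hr v (Finset.mem_univ _) u (Finset.mem_univ _) w (Finset.mem_univ _)

end Pool.Agent.H3.ChordalPEO
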