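import Mathlib
import Pool.Agent.H5.W.Defs

namespace Pool.Agent.H3.WPrimes

open Finset

theorem theta_diff (Y : ℕ) : Chebyshev.theta (4 * Y : ℕ) - Chebyshev.theta Y =
    ∑ p ∈ (Ioc Y (4 * Y)).filter Nat.Prime, Real.log p := by
  unfold Chebyshev.theta
  rw [Nat.floor_natCast, Nat.floor_natCast, sum_filter, sum_filter, sum_filter]
  have h := Finset.sum_Ioc_consecutive (fun p : ℕ => if p.Prime then Real.log p else 0)
    (Nat.zero_le Y) (show Y ≤ 4 * Y by omega)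
  linarith

theorem theta_diff_ge : ∃ Y0 : ℕ, ∀ Y : ℕ, Y0 ≤ Y →
    (Y : ℝ) ≤ Chebyshev.theta (4 * Y : ℕ) - Chebyshev.theta Y := by
  obtain ⟨C, hC⟩ := Chebyshev.psi_sub_theta_le_mul_sqrt
  obtain ⟨Y0, hY0⟩ := exists_nat_ge (((5 + 2 * |C|) / 0.38) ^ 2 + 1)
  refine ⟨Y0, fun Y hY => ?_⟩
  have hYr : ((5 + 2 * |C|) / 0.38) ^ 2 + 1 ≤ (Y : ℝ) := hY0.trans (by exact_mod_cast hY)
  have hY1 : (1 : ℝ) ≤ Y := by
    have : 0 ≤ ((5 + 2 * |C|) / 0.38) ^ 2 := sq_nonneg _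
    linarith
  have hC0 : 0 ≤ |C| := abs_nonneg C
  have hsq : (5 + 2 * |C|) / 0.38 ≤ Real.sqrt Y := by
    apply Real.le_sqrt_of_sq_le
    linarith
  have h1 := Chebyshev.psi_ge (4 * Y)
  have h2 := hC ((4 * Y : ℕ) : ℝ)
  have h3 := Chebyshev.theta_le_log4_mul_x (x := (Y : ℝ)) (by linarith)
  have hs4 : Real.sqrt ((4 * Y : ℕ) : ℝ) = 2 * Real.sqrt Y := by
    push_cast
    rw [Real.sqrt_mul (by norm_num), show (4 : ℝ) = 2 ^ 2 by norm_num,
      Real.sqrt_sq (by norm_num)]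
  rw [hs4] at h2
  have hlog4 : Real.log 4 = 2 * Real.log 2 := by
    rw [show (4 : ℝ) = 2 ^ 2 by norm_num, Real.log_pow]
    norm_num
  rw [hlog4] at h3
  have hlog2 : (0.69 : ℝ) < Real.log 2 := by
    have := Real.log_two_gt_d9
    linarith
  have h4 : Real.log ((4 * Y : ℕ) + 1) ≤ 5 * Real.sqrt Y := by
    have e1 : (((4 * Y : ℕ) : ℝ) + 1) ≤ (5 / 2 * Real.sqrt Y + 1) ^ 2 := by
      push_cast
      have := Real.sq_sqrt (show (0 : ℝ) ≤ Y by linarith)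
      have hs : 0 ≤ Real.sqrt Y := Real.sqrt_nonneg _
      nlinarith
    have e2 : Real.log ((4 * Y : ℕ) + 1) ≤ Real.log ((5 / 2 * Real.sqrt Y + 1) ^ 2) := by
      apply Real.log_le_log _ e1
      positivity
    rw [Real.log_pow] at e2
    have e3 := Real.log_le_sub_one_of_pos (show 0 < 5 / 2 * Real.sqrt Y + 1 by positivity)
    push_cast at e2 ⊢
    linarith
  push_cast at h1 h4
  have h5 : C * (2 * Real.sqrt Y) ≤ |C| * (2 * Real.sqrt Y) := by
    apply mul_le_mul_of_nonneg_right (le_abs_self C)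
    positivity
  have h6 : (5 + 2 * |C|) * Real.sqrt Y ≤ 0.38 * Y := by
    have e1 : 5 + 2 * |C| ≤ 0.38 * Real.sqrt Y := by
      have := (div_le_iff₀ (by norm_num : (0 : ℝ) < 0.38)).mp hsq
      linarith
    have e2 := mul_le_mul_of_nonneg_right e1 (Real.sqrt_nonneg (Y : ℝ))
    have e3 := Real.mul_self_sqrt (show (0 : ℝ) ≤ Y by linarith)
    nlinarith
  push_cast
  push_cast at h2
  nlinarith

theorem block : ∃ Y0 : ℕ, 2 ≤ Y0 ∧ ∀ Y : ℕ, Y0 ≤ Y →
    1 / (4 * Real.log (4 * Y)) ≤ ∑ p ∈ (Ioc Y (4 * Y)).filter Nat.Prime, 1 / (p : ℝ) := by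
  obtain ⟨Y0, hY0⟩ := theta_diff_ge
  refine ⟨max Y0 2, le_max_right _ _, fun Y hY => ?_⟩
  have hY2 : 2 ≤ Y := (le_max_right _ _).trans hY
  have h1 := hY0 Y ((le_max_left _ _).trans hY)
  rw [theta_diff] at h1
  have hYr : (2 : ℝ) ≤ Y := by exact_mod_cast hY2
  have hlog : 0 < Real.log (4 * Y) := Real.log_pos (by linarith)
  have h2 : (∑ p ∈ (Ioc Y (4 * Y)).filter Nat.Prime, Real.log p) ≤
      (4 * Y * Real.log (4 * Y)) * ∑ p ∈ (Ioc Y (4 * Y)).filter Nat.Prime, 1 / (p : ℝ) := by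
    rw [Finset.mul_sum]
    apply Finset.sum_le_sum
    intro p hp
    rw [mem_filter, mem_Ioc] at hp
    have hp1 : (Y : ℝ) < p := by exact_mod_cast hp.1.1
    have hp2 : (p : ℝ) ≤ 4 * Y := by exact_mod_cast hp.1.2
    have hp0 : (0 : ℝ) < p := by linarith
    have e1 : Real.log p ≤ Real.log (4 * Y) := Real.log_le_log hp0 hp2
    have e2 : 1 ≤ 4 * Y * (1 / (p : ℝ)) := by
      rw [mul_one_div, le_div_iff₀ hp0]
      linarith
    calc Real.log p ≤ Real.log (4 * Y) * 1 := by linarith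
      _ ≤ Real.log (4 * Y) * (4 * Y * (1 / (p : ℝ))) := mul_le_mul_of_nonneg_left e2 hlog.le
      _ = _ := by ring
  have h3 := h1.trans h2
  rw [div_le_iff₀ (by positivity)]
  have hY0' : (0 : ℝ) < Y := by linarith
  have h4 : (Y : ℝ) * 1 ≤ Y * ((∑ p ∈ (Ioc Y (4 * Y)).filter Nat.Prime, 1 / (p : ℝ)) *
      (4 * Real.log (4 * Y))) := by
    linarith
  exact le_of_mul_le_mul_left h4 hY0'

theorem blocks {Y0 : ℕ} (hY2 : 2 ≤ Y0) (hY0 : ∀ Y : ℕ, Y0 ≤ Y →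
    1 / (4 * Real.log (4 * Y)) ≤ ∑ p ∈ (Ioc Y (4 * Y)).filter Nat.Prime, 1 / (p : ℝ))
    (M : ℕ) (hM : Y0 ≤ M) (B : ℝ) (K : ℕ) (hB : ((4 ^ K * M : ℕ) : ℝ) ≤ B) :
    K * (1 / (4 * Real.log B)) ≤ ∑ p ∈ (Ioc M (4 ^ K * M)).filter Nat.Prime, 1 / (p : ℝ) := by
  induction K with
  | zero => simp
  | succ K ih =>
    have hM2 : (2 : ℝ) ≤ M := by exact_mod_cast hY2.trans hM
    have h4K : (1 : ℝ) ≤ 4 ^ K := one_le_pow₀ (by norm_num)
    have hle : ((4 ^ K * M : ℕ) : ℝ) ≤ ((4 ^ (K + 1) * M : ℕ) : ℝ) := by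
      exact_mod_cast Nat.mul_le_mul_right M (Nat.pow_le_pow_right (by norm_num) (Nat.le_succ K))
    have h1 := ih (hle.trans hB)
    have h2 := hY0 (4 ^ K * M) (hM.trans (Nat.le_mul_of_pos_left M (by positivity)))
    rw [sum_filter] at h1 h2 ⊢
    have h3 := Finset.sum_Ioc_consecutive (fun p : ℕ => if p.Prime then 1 / (p : ℝ) else 0)
      (show M ≤ 4 ^ K * M from Nat.le_mul_of_pos_left M (by positivity))
      (show 4 ^ K * M ≤ 4 * (4 ^ K * M) by omega)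
    have h4 : 4 ^ (K + 1) * M = 4 * (4 ^ K * M) := by ring
    rw [h4, ← h3]
    have h5 : 1 / (4 * Real.log B) ≤ 1 / (4 * Real.log (4 * ((4 ^ K * M : ℕ) : ℝ))) := by
      have e1 : (1 : ℝ) < 4 * ((4 ^ K * M : ℕ) : ℝ) := by
        push_cast
        nlinarith
      have e2 : 4 * ((4 ^ K * M : ℕ) : ℝ) ≤ B := by
        rw [h4] at hB
        push_cast at hB ⊢
        exact hB
      have e3 := Real.log_pos e1
      have e4 := Real.log_le_log (by linarith) e2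
      apply one_div_le_one_div_of_le (by positivity)
      linarith
    push_cast
    push_cast at h2 h5
    linarith

end Pool.Agent.H3.WPrimes

namespace Pool.Agent.H5.W

open Finset

/-- MODULE PL -/
theorem prime_recip_lower (a : ℕ) (ha : 1 ≤ a) : ∃ c : ℝ, 0 < c ∧ ∃ J0 : ℕ, ∀ J : ℕ, J0 ≤ J →
    c ≤ ∑ p ∈ (Ioc (J ^ a) (J ^ (2 * a))).filter Nat.Prime, 1 / (p : ℝ) := by
  obtain ⟨Y0, hY2, hY0⟩ := Pool.Agent.H3.WPrimes.block
  refine ⟨1 / (16 * Real.log 4), by positivity, max Y0 16, fun J hJ => ?_⟩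
  have hJ0 : Y0 ≤ J := (le_max_left _ _).trans hJ
  have hJ16 : 16 ≤ J := (le_max_right _ _).trans hJ
  set M := J ^ a with hM
  have hMJ : J ≤ M := Nat.le_self_pow (by omega) J
  have hM0 : M ≠ 0 := by positivity
  set K := Nat.log 4 M with hK
  have hK1 : 4 ^ K ≤ M := Nat.pow_log_le_self 4 hM0
  have hK2 : M < 4 ^ (K + 1) := Nat.lt_pow_succ_log_self (by norm_num) M
  have hMM : J ^ (2 * a) = M * M := by rw [hM, ← pow_add]; congr 1; omega
  have hB : ((4 ^ K * M : ℕ) : ℝ) ≤ ((M * M : ℕ) : ℝ) := by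
    exact_mod_cast Nat.mul_le_mul_right M hK1
  have h1 := Pool.Agent.H3.WPrimes.blocks hY2 hY0 M (hJ0.trans hMJ) _ K hB
  have hMr : (16 : ℝ) ≤ M := by exact_mod_cast hJ16.trans hMJ
  have hlogM : 0 < Real.log M := Real.log_pos (by linarith)
  have hlog4 : 0 < Real.log 4 := Real.log_pos (by norm_num)
  have h2 : Real.log M ≤ (K + 1) * Real.log 4 := by
    have e1 : (M : ℝ) ≤ ((4 ^ (K + 1) : ℕ) : ℝ) := by exact_mod_cast hK2.le
    have e2 := Real.log_le_log (by linarith) e1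
    push_cast at e2
    rw [Real.log_pow] at e2
    push_cast at e2
    exact e2
  have h3 : 2 * Real.log 4 ≤ Real.log M := by
    have e1 := Real.log_le_log (by norm_num) hMr
    rw [show (16 : ℝ) = 4 ^ 2 by norm_num, Real.log_pow] at e1
    push_cast at e1
    exact e1
  have h4 : Real.log M ≤ 2 * K * Real.log 4 := by nlinarith
  have h5 : Real.log ((M * M : ℕ) : ℝ) = 2 * Real.log M := by
    push_cast
    rw [Real.log_mul (by linarith) (by linarith)]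
    ring
  rw [h5] at h1
  have h6 : (1 : ℝ) / (16 * Real.log 4) ≤ K * (1 / (4 * (2 * Real.log M))) := by
    rw [mul_one_div, div_le_div_iff₀ (by positivity) (by positivity)]
    nlinarith
  refine (h6.trans h1).trans ?_
  rw [hMM]
  apply Finset.sum_le_sum_of_subset_of_nonneg
  · intro p hp
    rw [mem_filter, mem_Ioc] at hp ⊢
    exact ⟨⟨hp.1.1, hp.1.2.trans (Nat.mul_le_mul_right M hK1)⟩, hp.2⟩
  · intro p _ _
    positivity

end Pool.Agent.H5.W
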